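import Pool.Agent.Q230.CO.Mem

/-!
# Collinearity logic with bounded groups is `∃ℝ`-complete

For every `k ≥ 3` collinearity logic with groups of at most `k` variables is complete for the
existential theory of the reals.
-/

namespace Pool.Agent.Results.MP_8c8e41_lc.GroupsOfThree

open Pool.Agent.NPC Pool.Agent.NPC.ER Pool.Agent.Q230.CO

/-- For every `k ≥ 3`, `COL_k` is `∃ℝ`-complete. -/
theorem result (k : ℕ) (hk : 3 ≤ k) : ERComplete (lang (COLk k)) :=
  ⟨mem k, hard hk⟩

end Pool.Agent.Results.MP_8c8e41_lc.GroupsOfThree
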